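import Pool.Agent.Helper1K1.PK.A6

/-!
# Peak sets for analytic Lipschitz classes which are not zero sets of the Gevrey class

For every `α` with `0 < α ≤ 1` there is a closed subset `E` of the unit circle which is a peak set for the
class `A_α` and is not a zero set for the Gevrey class `G_α`. So `𝒫_α ≠ Z(G_α)` for all `α`, and the
answer to Q1 is no, for each `α`.

For `α = 1` one takes `E = {1}` (the function `(1 + z) / 2` peaks there, and `G_1` is quasianalytic).

Let `α < 1`, `r_n = 16^(-n-1)`, `m_n = r_n^(1/α - 1)`, `L_n = K (n + 1)^(1/α)` with a large constant `K`.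
The set `E` consists of the point `1` and, for every `n`, of `N_n` points in arithmetic progression on the
arc of the angles between `r_n` and `2 r_n`, where `N_n` is about `1 / (m_n L_n)`.

* `E` is not a zero set for `G_α`: a function of `G_α` all of whose derivatives vanish on `E` satisfies
  `|f(z)| ≤ C exp (- c dist(z, E)^(-α))` (Taylor's formula), and the integral of `dist(·, E)^(-α)` over
  the circle diverges: the `n`-th arc contributes about `L_n^(-α) = K^(-α) / (n + 1)`. By Jensen's
  formula `f = 0`.
* `E` is a peak set for `A_α`: put
  `h(z) = 1 / (1 - z) + ∑_ζ m (1 / w + 1 / (w + ρ))`, `w = 1 - z / ζ`, where `ζ` runs through the points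
  of the `n`-th arc, `m = m_n`, and `ρ = m_n r_n = r_n^(1/α)`. All terms have a nonnegative real part. The
  terms except the one of the nearest point have a sum of modulus at most `1 / (16 |1 - z|)`, since
  `∑ 1 / L_n < ∞` and `L_n` is larger than the logarithm of `N_n`. The terms `1 / (1 - z)` and `m / w` are
  of the same size only if `|w|` is comparable to `ρ`, and there the real part of `m / (w + ρ)` is of this
  size too. So `|h|` is comparable to the sum of the moduli of the terms, `|h| ≥ c dist(z, E)^(-α)`, and
  `h / (h + 1)` satisfies a Lipschitz condition of order `α` and peaks on `E`.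
-/

set_option autoImplicit false

open Pool.Agent.Helper1K1.PK

namespace Pool.Agent.Results.MP_345ce5_an.PeakSetsNotGevreyZeroSets

/-- **For every `α` in `(0, 1]` there is a peak set for `A_α` which is not a zero set for `G_α`.**
`IsPeakSet α E`: `E` is a closed subset of the unit circle, and there is a function `f`, analytic in the
open disc, continuous on the closed disc, with `|f(z) - f(w)| ≤ C |z - w|^α` on the circle, `f = 1` on
`E`, and `|f| < 1` on the circle outside of `E`. `IsGevreyZeroSet α E`: `E` is a closed subset of the
unit circle, and there is a function `f`, analytic and not identically zero in the open disc, with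
`|f^(n)| ≤ C^(n+1) (n!)^(1 + 1/α)` there, such that `f^(n)(z) → 0` as `z → ζ`, for all `n ≥ 0`, `ζ ∈ E`. -/
theorem result (α : ℝ) (hα : 0 < α) (hα1 : α ≤ 1) :
    ∃ E : Set ℂ, IsPeakSet α E ∧ ¬ IsGevreyZeroSet α E :=
  main α hα hα1

end Pool.Agent.Results.MP_345ce5_an.PeakSetsNotGevreyZeroSets
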